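import Pool.Agent.helper61.SP.SpecDX
import Pool.Agent.helper35.DP.BIND
import Pool.Agent.helper1.DP.RR4

/-!
# sp, module DX5: extension of vertical crossings
-/

namespace TP

open DP MeasureTheory

/-- the exploration reveals `X`, and `K` is connected to the top -/
def DX5_W (β : V → V) (w h : ℤ) (X K : Set V) : Set (V → Bool) :=
  {ω | RV (kap β ω) w h = X ∧ KT (kap β ω) w h = K}

/-- the extension exists -/
def DX5_E (β : V → V) (w h s : ℤ) (X K : Set V) : Set (V → Bool) :=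
  {ω | EX β (kap β ω) X K w h s}

theorem DX5_W_loc (β : V → V) {w h : ℤ} (hw : 0 ≤ w) (hh : 0 ≤ h) (X : Finset V) (K : Set V) :
    DP.Loc (DX5_W β w h X K) (β '' (X : Set V)) := by
  refine DP.Loc.of_finite (X.finite_toSet.image β) ?_
  have key : ∀ b b' : V → Bool, (∀ v ∈ β '' (X : Set V), b v = b' v) →
      b ∈ DX5_W β w h X K → b' ∈ DX5_W β w h X K := by
    rintro b b' hb ⟨h1, h2⟩
    have hc : ∀ v ∈ (X : Set V), kap β b v = kap β b' v := fun v hv => hb _ ⟨v, hv, rfl⟩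
    have h3 : RV (kap β b') w h = X := by
      rw [RR1 (kap β b) (kap β b') w h hw hh (by rw [h1]; exact hc), h1]
    refine ⟨h3, ?_⟩
    rw [← h2]
    unfold KT
    rw [h1, h3]
    ext v
    simp only [Set.mem_ofPred_eq]
    refine and_congr_right fun _ => exists_congr fun t => and_congr_right fun _ => ?_
    exact (Conn.congr hc).symm
  intro b b' hb
  exact ⟨key b b' hb, key b' b fun v hv => (hb v hv).symm⟩

/-- the sites whose coins are not used by `X` -/
def DX5_S (β : V → V) (w h s : ℤ) (X : Set V) : Set V :=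
  {x | x ∈ rect 0 w (-s) h ∧ ∀ x' ∈ X, β x' ≠ β x}

theorem DX5_rect_finite (a b c d : ℤ) : (rect a b c d).Finite := by
  refine Set.Finite.subset (((Finset.Icc a b) ×ˢ (Finset.Icc c d) : Finset V).finite_toSet) ?_
  rintro v ⟨h1, h2, h3, h4⟩
  simp only [Finset.coe_product, Finset.coe_Icc, Set.mem_prod, Set.mem_Icc]
  exact ⟨⟨h1, h2⟩, h3, h4⟩

theorem DX5_E_loc (β : V → V) (w h s : ℤ) (X K : Set V) :
    DP.Loc (DX5_E β w h s X K) (β '' (DX5_S β w h s X)) := by
  refine DP.Loc.of_finite (Set.Finite.image β ((DX5_rect_finite 0 w (-s) h).subset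
    fun x hx => hx.1)) ?_
  have key : ∀ b b' : V → Bool, (∀ v ∈ β '' (DX5_S β w h s X), b v = b' v) →
      b ∈ DX5_E β w h s X K → b' ∈ DX5_E β w h s X K := by
    rintro b b' hb ⟨v', hv', v, hv, hvv, z', y, h1, h2, h3⟩
    refine ⟨v', hv', v, hv, hvv, z', y, h1, h2, ?_⟩
    refine (Conn.congr ?_).1 h3
    intro x hx
    exact hb _ ⟨x, hx, rfl⟩
  intro b b' hb
  exact ⟨key b b' hb, key b' b fun v hv => (hb v hv).symm⟩

theorem DX5_ind (β : V → V) {w h s : ℤ} (hw : 0 ≤ w) (hh : 0 ≤ h) (X : Finset V) (K : Set V) :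
    Pr (DX5_W β w h X K ∩ DX5_E β w h s X K) = Pr (DX5_W β w h X K) * Pr (DX5_E β w h s X K) := by
  refine Bindep_Pr ?_ (DX5_W_loc β hw hh X K) (DX5_E_loc β w h s X K)
  rw [Set.disjoint_left]
  rintro _ ⟨x, hx, rfl⟩ ⟨y, hy, hxy⟩
  exact hy.2 x hx hxy.symm

/-- the extension is likely -/
theorem DX5_low (h1 : DX1_stmt) (h2 : DX2_stmt) (β : V → V)
    (hadj : ∀ v w : V, β v = β w → v ≠ w → Adj v w) {w h s : ℤ} (hs : 2 ≤ s) (hw : 0 ≤ w)
    (J : ℕ) (hJ : 3 * (4 ^ J * (s + 1)) ≤ h) (η : ℝ)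
    (hη : ∀ z : ℤ, 0 ≤ z → Pr {ω | ∀ j < J, ¬ HG (kap β ω) s z (4 ^ j * (s + 1))} ≤ η)
    (X K : Set V) (hne : (DX5_W β w h X K).Nonempty)
    (hz : ∃ z ∈ K, z.2 = 0 ∧ z.1 + 3 * (4 ^ J * (s + 1)) ≤ w) :
    1 ≤ Pr (DX5_E β w h s X K) + η := by
  have : IsProbabilityMeasure P1 := by unfold P1; infer_instance
  obtain ⟨ω₀, hX, hK⟩ := hne
  obtain ⟨z, hzK, hz2, hz1⟩ := hz
  have hp : (0 : ℤ) < 4 ^ J * (s + 1) := by positivity
  have hh : 0 ≤ h := by linarith
  obtain ⟨a1, a2, a3, a4, a5⟩ := h2.1 (kap β ω₀) w h hw hh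
  rw [hX, hK] at a1 a5
  rw [hK] at a4
  rw [hX] at a2 a3
  obtain ⟨t, ht, hzt⟩ := a4 z hzK
  have hz0 : 0 ≤ z.1 := (a2 (a1 hzK)).1
  have hsub : (DX5_E β w h s X K)ᶜ ⊆ {ω | ∀ j < J, ¬ HG (kap β ω) s z.1 (4 ^ j * (s + 1))} := by
    intro ω hω j hj hH
    apply hω
    have hle : (4 : ℤ) ^ j * (s + 1) ≤ 4 ^ J * (s + 1) := by
      refine mul_le_mul_of_nonneg_right (pow_le_pow_right₀ (by norm_num) hj.le) (by linarith)
    have hone : (1 : ℤ) ≤ 4 ^ j := one_le_pow₀ (by norm_num)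
    have hlt : s < 4 ^ j * (s + 1) := by nlinarith
    exact h1 β (kap β ω) X K w h s (4 ^ j * (s + 1)) z t hadj hs hlt (by linarith) (by linarith)
      a1 a2 a3 hzK hz2 ht hzt a5 hH
  have hu : (Set.univ : Set (V → Bool)) ⊆ DX5_E β w h s X K ∪ (DX5_E β w h s X K)ᶜ := by
    rw [Set.union_compl_self]
  have e1 : (1 : ℝ) ≤ Pr (DX5_E β w h s X K) + Pr ((DX5_E β w h s X K)ᶜ) := by
    have e2 : Pr (Set.univ : Set (V → Bool)) = 1 := by
      unfold Pr
      simp
    rw [← e2]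
    unfold Pr
    exact (measureReal_mono hu (measure_ne_top _ _)).trans (measureReal_union_le _ _)
  have e3 : Pr ((DX5_E β w h s X K)ᶜ) ≤ η := by
    refine le_trans ?_ (hη z.1 hz0)
    unfold Pr
    exact measureReal_mono hsub (measure_ne_top _ _)
  linarith

/-- the sum over the revealed sets -/
theorem DX5_sum (h1 : DX1_stmt) (h2 : DX2_stmt) (β : V → V)
    (hadj : ∀ v w : V, β v = β w → v ≠ w → Adj v w) {w h s : ℤ} (hs : 2 ≤ s) (hw : 0 ≤ w)
    (J : ℕ) (hJ : 3 * (4 ^ J * (s + 1)) ≤ h) (η : ℝ) (hη0 : 0 ≤ η)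
    (hη : ∀ z : ℤ, 0 ≤ z → Pr {ω | ∀ j < J, ¬ HG (kap β ω) s z (4 ^ j * (s + 1))} ≤ η) :
    Pr {ω | vcross (kap β ω) true 0 w 0 h} ≤ Pr {ω | vcross (kap β ω) true 0 w (-s) h} + η +
      Pr {ω | reach (kap β ω) true (w, 0) (3 * (4 ^ J * (s + 1))).toNat h.toNat} := by
  classical
  have : IsProbabilityMeasure P1 := by unfold P1; infer_instance
  have hp : (0 : ℤ) < 4 ^ J * (s + 1) := by positivity
  have hh : 0 ≤ h := by linarith
  set R : ℤ := 3 * (4 ^ J * (s + 1)) with hR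
  set Λ : Finset V := (DX5_rect_finite 0 w 0 h).toFinset with hΛ
  set good : Finset V × Finset V → Prop := fun p => ∃ z ∈ p.2, z.2 = 0 ∧ z.1 + R ≤ w with hgood
  set G : Finset (Finset V × Finset V) := (Λ.powerset ×ˢ Λ.powerset).filter good with hG
  set W : Finset V × Finset V → Set (V → Bool) := fun p => DX5_W β w h p.1 p.2 with hW
  set F : Finset V × Finset V → Set (V → Bool) := fun p => DX5_E β w h s p.1 p.2 with hF
  have hWloc : ∀ p, DP.Loc (W p) (β '' (p.1 : Set V)) := fun p => DX5_W_loc β hw hh p.1 p.2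
  have hFloc : ∀ p, DP.Loc (F p) (β '' (DX5_S β w h s p.1)) := fun p => DX5_E_loc β w h s _ _
  -- lower bound
  have hlow : ∀ p ∈ G, Pr (W p) ≤ Pr (W p ∩ F p) + η * Pr (W p) := by
    intro p hp'
    have hgd : good p := (Finset.mem_filter.1 hp').2
    have e : Pr (W p ∩ F p) = Pr (W p) * Pr (F p) := DX5_ind β hw hh p.1 p.2
    rw [e]
    have h0 : 0 ≤ Pr (W p) := measureReal_nonneg
    by_cases hne : (W p).Nonempty
    · have h3 : 1 ≤ Pr (F p) + η := DX5_low h1 h2 β hadj hs hw J hJ η hη _ _ hne hgd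
      nlinarith
    · rw [Set.not_nonempty_iff_eq_empty] at hne
      have : Pr (W p) = 0 := by rw [hne]; simp [Pr]
      rw [this]; simp
  -- cover
  have hcov : {ω | vcross (kap β ω) true 0 w 0 h} ⊆
      (⋃ p ∈ G, W p) ∪ {ω | reach (kap β ω) true (w, 0) R.toNat h.toNat} := by
    intro ω hω
    obtain ⟨u, t, hu, ht, hut⟩ := Asm_RR5 (kap β ω) w h hw hh hω
    have hRsub : RV (kap β ω) w h ⊆ rect 0 w 0 h := fun v hv => hv.1
    have hKsub : KT (kap β ω) w h ⊆ rect 0 w 0 h := fun v hv => hRsub hv.1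
    have hfR : (RV (kap β ω) w h).Finite := (DX5_rect_finite 0 w 0 h).subset hRsub
    have hfK : (KT (kap β ω) w h).Finite := (DX5_rect_finite 0 w 0 h).subset hKsub
    have huR : u ∈ RV (kap β ω) w h := hut.1.1
    have huK : u ∈ KT (kap β ω) w h := ⟨huR, t, ht, hut⟩
    by_cases hg : u.1 + R ≤ w
    · refine Or.inl ?_
      rw [Set.mem_iUnion₂]
      refine ⟨(hfR.toFinset, hfK.toFinset), ?_, ?_⟩
      · rw [hG, Finset.mem_filter, Finset.mem_product, Finset.mem_powerset, Finset.mem_powerset]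
        refine ⟨⟨fun v hv => ?_, fun v hv => ?_⟩, u, ?_, hu, hg⟩
        · rw [Set.Finite.mem_toFinset] at hv ⊢
          exact hRsub hv
        · rw [Set.Finite.mem_toFinset] at hv ⊢
          exact hKsub hv
        · rw [Set.Finite.mem_toFinset]
          exact huK
      · exact ⟨by simp, by simp⟩
    · refine Or.inr ⟨u, t, ?_, ?_, ?_⟩
      · have hu' : 0 ≤ u.1 ∧ u.1 ≤ w ∧ 0 ≤ u.2 ∧ u.2 ≤ h := hRsub huR
        unfold sd
        dsimp only
        rw [hu]
        omega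
      · unfold sd
        dsimp only
        rw [ht]
        omega
      · exact hut.mono (Set.subset_univ _)
  have hV : Pr {ω | vcross (kap β ω) true 0 w 0 h} ≤ ∑ p ∈ G, Pr (W p) +
      Pr {ω | reach (kap β ω) true (w, 0) R.toNat h.toNat} := by
    unfold Pr
    refine (measureReal_mono hcov (measure_ne_top _ _)).trans
      ((measureReal_union_le _ _).trans ?_)
    exact add_le_add (measureReal_biUnion_finset_le _ _) le_rfl
  have hWd : ∀ p ∈ G, ∀ q ∈ G, p ≠ q → Disjoint (W p) (W q) := by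
    intro p _ q _ hpq
    rw [Set.disjoint_left]
    intro c hc hc'
    apply hpq
    have e1 : RV (kap β c) w h = p.1 := hc.1
    have e2 : RV (kap β c) w h = q.1 := hc'.1
    have e3 : KT (kap β c) w h = p.2 := hc.2
    have e4 : KT (kap β c) w h = q.2 := hc'.2
    exact Prod.ext (Finset.coe_injective (e1.symm.trans e2)) (Finset.coe_injective (e3.symm.trans e4))
  have hsumW : ∑ p ∈ G, Pr (W p) ≤ 1 := by
    have e : ∑ p ∈ G, Pr (W p) = Pr (⋃ p ∈ G, W p) := by
      unfold Pr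
      rw [measureReal_biUnion_finset]
      · exact fun X hX Y hY hXY => hWd X hX Y hY hXY
      · intro p _
        exact (hWloc p).measurableSet
    rw [e]
    unfold Pr
    exact measureReal_le_one
  have hsumF : ∑ p ∈ G, Pr (W p ∩ F p) ≤ Pr {ω | vcross (kap β ω) true 0 w (-s) h} := by
    have e : ∑ p ∈ G, Pr (W p ∩ F p) = Pr (⋃ p ∈ G, (W p ∩ F p)) := by
      unfold Pr
      rw [measureReal_biUnion_finset]
      · exact fun X hX Y hY hXY =>
          (hWd X hX Y hY hXY).mono Set.inter_subset_left Set.inter_subset_left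
      · intro p _
        exact ((hWloc p).inter (hFloc p)).measurableSet
    rw [e]
    unfold Pr
    refine measureReal_mono ?_ (measure_ne_top _ _)
    intro ω hω
    rw [Set.mem_iUnion₂] at hω
    obtain ⟨p, _, hc1, hc2⟩ := hω
    refine h2.2 β (kap β ω) w h s hadj ?_ hw hh (by linarith) ?_
    · intro v w' hvw
      unfold kap
      rw [hvw]
    · have e1 : RV (kap β ω) w h = p.1 := hc1.1
      have e3 : KT (kap β ω) w h = p.2 := hc1.2
      rw [e1, e3]
      exact hc2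
  have hfin : ∑ p ∈ G, Pr (W p) ≤ ∑ p ∈ G, Pr (W p ∩ F p) + η * ∑ p ∈ G, Pr (W p) := by
    rw [Finset.mul_sum, ← Finset.sum_add_distrib]
    exact Finset.sum_le_sum hlow
  nlinarith

theorem DX5 (h1 : DX1_stmt) (h2 : DX2_stmt) (h4 : DX4_stmt) : DX5_stmt := by
  intro β hβ ε hε
  obtain ⟨c, hc0, hc1, L, hL⟩ := h4 β hβ
  obtain ⟨hadj, _, C, hC, a, ha, harm⟩ := hβ
  obtain ⟨J, hJ⟩ : ∃ J : ℕ, (1 - c) ^ J < ε / 2 :=
    exists_pow_lt_of_lt_one (by positivity) (by linarith)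
  set ρ : ℝ := min 1 ((ε / (2 * C)) ^ (1 / a)) with hρ
  have hρ0 : 0 < ρ := lt_min one_pos (Real.rpow_pos_of_pos (by positivity) _)
  have hρ1 : ρ ≤ 1 := min_le_left _ _
  have hρa : C * ρ ^ a ≤ ε / 2 := by
    have e1 : ρ ^ a ≤ ε / (2 * C) := by
      calc ρ ^ a ≤ ((ε / (2 * C)) ^ (1 / a)) ^ a :=
            Real.rpow_le_rpow hρ0.le (min_le_right _ _) ha.le
        _ = ε / (2 * C) := by
            rw [← Real.rpow_mul (by positivity), one_div, inv_mul_cancel₀ ha.ne', Real.rpow_one]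
    calc C * ρ ^ a ≤ C * (ε / (2 * C)) := mul_le_mul_of_nonneg_left e1 hC.le
      _ = ε / 2 := by field_simp
  set δ : ℝ := ρ / (6 * 4 ^ J) with hδ
  refine ⟨δ, by positivity, max 2 L, le_max_left _ _, ?_⟩
  intro w h s hs hsw hsh
  have hs2 : 2 ≤ s := (le_max_left _ _).trans hs
  have hsL : L ≤ s := (le_max_right _ _).trans hs
  have hsR : (2 : ℝ) ≤ s := by exact_mod_cast hs2
  have hδ0 : 0 < δ := by positivity
  have hwR : (0 : ℝ) < w := by
    by_contra hcon
    have : δ * (w : ℝ) ≤ 0 := mul_nonpos_of_nonneg_of_nonpos hδ0.le (not_lt.1 hcon)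
    linarith
  have hhR : (0 : ℝ) < h := by
    by_contra hcon
    have : δ * (h : ℝ) ≤ 0 := mul_nonpos_of_nonneg_of_nonpos hδ0.le (not_lt.1 hcon)
    linarith
  have hw : 0 ≤ w := by
    have : (0 : ℤ) < w := by exact_mod_cast hwR
    exact this.le
  have hh : 0 < h := by exact_mod_cast hhR
  -- the radius
  have hRle : ((3 * (4 ^ J * (s + 1)) : ℤ) : ℝ) ≤ ρ * h := by
    push_cast
    have e1 : (4 : ℝ) ^ J * (s + 1) ≤ 4 ^ J * (2 * s) :=
      mul_le_mul_of_nonneg_left (by linarith) (by positivity)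
    have e2 : (6 * 4 ^ J) * (s : ℝ) ≤ (6 * 4 ^ J) * (δ * h) :=
      mul_le_mul_of_nonneg_left hsh (by positivity)
    have e3 : (6 * 4 ^ J) * (δ * h) = ρ * h := by
      rw [hδ]
      field_simp
    rw [← e3]
    linarith
  have hRh : 3 * (4 ^ J * (s + 1)) ≤ h := by
    have : ((3 * (4 ^ J * (s + 1)) : ℤ) : ℝ) ≤ (h : ℝ) := by
      refine hRle.trans ?_
      nlinarith
    exact_mod_cast this
  have hp : (0 : ℤ) < 4 ^ J * (s + 1) := by positivity
  have hη0 : 0 ≤ (1 - c) ^ J := pow_nonneg (by linarith) _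
  have hmain := DX5_sum h1 h2 β hadj hs2 hw J hRh ((1 - c) ^ J) hη0
    (fun z hz => hL s z (s + 1) J (by linarith) (by linarith) (by linarith) hz)
  have hreach : Pr {ω | reach (kap β ω) true (w, 0) (3 * (4 ^ J * (s + 1))).toNat h.toNat} ≤
      ε / 2 := by
    refine (harm (w, 0) (3 * (4 ^ J * (s + 1))).toNat h.toNat (by omega) (by omega)).trans ?_
    refine le_trans ?_ hρa
    refine mul_le_mul_of_nonneg_left (Real.rpow_le_rpow (by positivity) ?_ ha.le) hC.le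
    have e1 : (((3 * (4 ^ J * (s + 1))).toNat : ℕ) : ℝ) = ((3 * (4 ^ J * (s + 1)) : ℤ) : ℝ) := by
      have : (((3 * (4 ^ J * (s + 1))).toNat : ℕ) : ℤ) = 3 * (4 ^ J * (s + 1)) :=
        Int.toNat_of_nonneg (by linarith)
      exact_mod_cast this
    have e2 : ((h.toNat : ℕ) : ℝ) = (h : ℝ) := by
      have : ((h.toNat : ℕ) : ℤ) = h := Int.toNat_of_nonneg hh.le
      exact_mod_cast this
    rw [e1, e2, div_le_iff₀ hhR]
    exact hRle
  linarith

end TP
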