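import Pool.Agent.helper49.SP.SpecAS

/-!
# sp, module ASF1: semantics of counts, disjunctions and conjunctions
-/

namespace TP

open DP MeasureTheory

open Classical in
theorem F1_count (sat : Form → Prop) (htt : sat .tt) (hff : ¬ sat .ff)
    (hand : ∀ φ ψ, sat (.and φ ψ) ↔ sat φ ∧ sat ψ) (hor : ∀ φ ψ, sat (.or φ ψ) ↔ sat φ ∨ sat ψ)
    (L : List Form) : ∀ T : ℕ, sat (fCount L T) ↔ T ≤ L.countP fun φ => decide (sat φ) := by
  induction L with
  | nil =>
    intro T
    cases T with
    | zero => exact iff_of_true htt (Nat.zero_le _)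
    | succ T => exact iff_of_false hff (by simp)
  | cons φ L ih =>
    intro T
    cases T with
    | zero => exact iff_of_true htt (Nat.zero_le _)
    | succ T =>
      change sat (.or (.and φ (fCount L T)) (fCount L (T + 1))) ↔ _
      rw [hor, hand, ih T, ih (T + 1)]
      by_cases h : sat φ
      · rw [List.countP_cons_of_pos (by simpa using h)]
        constructor
        · rintro (⟨_, h1⟩ | h1) <;> omega
        · intro h1
          exact Or.inl ⟨h, by omega⟩
      · rw [List.countP_cons_of_neg (by simpa using h)]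
        constructor
        · rintro (⟨h1, _⟩ | h1)
          · exact absurd h1 h
          · exact h1
        · exact Or.inr

theorem F1_or (sat : Form → Prop) (hff : ¬ sat .ff)
    (hor : ∀ φ ψ, sat (.or φ ψ) ↔ sat φ ∨ sat ψ) (L : List Form) :
    sat (fOr L) ↔ ∃ φ ∈ L, sat φ := by
  induction L with
  | nil => exact iff_of_false hff (by simp)
  | cons φ L ih =>
    change sat (.or φ (fOr L)) ↔ _
    rw [hor, ih]
    simp

theorem F1_and (sat : Form → Prop) (htt : sat .tt)
    (hand : ∀ φ ψ, sat (.and φ ψ) ↔ sat φ ∧ sat ψ) (L : List Form) :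
    sat (fAnd L) ↔ ∀ φ ∈ L, sat φ := by
  induction L with
  | nil => exact iff_of_true htt (by simp)
  | cons φ L ih =>
    change sat (.and φ (fAnd L)) ↔ _
    rw [hand, ih]
    simp

theorem ASF1 : F1_stmt := by
  intro u X
  refine ⟨fun L T => ⟨?_, ?_⟩, fun L => ⟨?_, ?_⟩, fun L => ⟨?_, ?_⟩⟩
  · exact F1_count (satC u X) trivial id (fun _ _ => Iff.rfl) (fun _ _ => Iff.rfl) L T
  · exact F1_count (satO u X) trivial id (fun _ _ => Iff.rfl) (fun _ _ => Iff.rfl) L T
  · exact F1_or (satC u X) id (fun _ _ => Iff.rfl) L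
  · exact F1_or (satO u X) id (fun _ _ => Iff.rfl) L
  · exact F1_and (satC u X) trivial (fun _ _ => Iff.rfl) L
  · exact F1_and (satO u X) trivial (fun _ _ => Iff.rfl) L

end TP
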