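import Pool.Agent.helper31.SP.SpecTL

/-!
# sp, module TL15: Markov's inequality for the sum of squares
-/

namespace TP

open DP MeasureTheory

open Classical in
theorem TL15_card (B : Finset V) (T : Set V) :
    (((B.filter fun v => v ∈ T).card : ℝ)) ^ 2 =
      ∑ u ∈ B, ∑ v ∈ B, if u ∈ T ∧ v ∈ T then (1 : ℝ) else 0 := by
  have h1 : (((B.filter fun v => v ∈ T).card : ℝ)) = ∑ u ∈ B, if u ∈ T then (1 : ℝ) else 0 := by
    rw [Finset.sum_ite, Finset.sum_const_zero, add_zero, Finset.sum_const, nsmul_eq_mul, mul_one]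
  rw [sq, h1, Finset.sum_mul_sum]
  refine Finset.sum_congr rfl fun u _ => Finset.sum_congr rfl fun v _ => ?_
  by_cases hu : u ∈ T <;> by_cases hv : v ∈ T <;> simp [hu, hv]

/-- indicator of a proposition -/
noncomputable def TL15_i (p : Prop) : ℝ := by
  classical exact if p then 1 else 0

theorem TL15_i_pos {p : Prop} (h : p) : TL15_i p = 1 := by
  unfold TL15_i
  exact if_pos h

theorem TL15_i_neg {p : Prop} (h : ¬ p) : TL15_i p = 0 := by
  unfold TL15_i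
  exact if_neg h

theorem TL15_PS (i : ℕ) (A : Set V → Prop) :
    PS i A = ∑ T ∈ (VV i).powerset, fh (Fc i) T ^ 2 * TL15_i (A (T : Set V)) := by
  unfold PS PSF
  refine Finset.sum_congr rfl fun T _ => ?_
  split_ifs with h
  · rw [TL15_i_pos h, mul_one]
  · rw [TL15_i_neg h, mul_zero]

open Classical in
theorem TL15_card2 (B : Finset V) (T : Set V) :
    (((B.filter fun v => v ∈ T).card : ℝ)) ^ 2 =
      ∑ u ∈ B, ∑ v ∈ B, TL15_i (u ∈ T ∧ v ∈ T) := by
  rw [TL15_card]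
  refine Finset.sum_congr rfl fun u _ => Finset.sum_congr rfl fun v _ => ?_
  by_cases h : u ∈ T ∧ v ∈ T
  · rw [TL15_i_pos h, if_pos h]
  · rw [TL15_i_neg h, if_neg h]

theorem TL15_swap {Ω : Type} (W : Finset Ω) (G : Finset V) (bx : V → Finset V)
    (f : Ω → V → V → ℝ) : ∑ T ∈ W, ∑ x ∈ G, ∑ u ∈ bx x, ∑ v ∈ bx x, f T u v =
      ∑ x ∈ G, ∑ u ∈ bx x, ∑ v ∈ bx x, ∑ T ∈ W, f T u v := by
  rw [Finset.sum_comm (s := W) (t := G)]
  refine Finset.sum_congr rfl fun x _ => ?_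
  rw [Finset.sum_comm (s := W) (t := bx x)]
  refine Finset.sum_congr rfl fun u _ => ?_
  rw [Finset.sum_comm (s := W) (t := bx x)]

theorem TL15 : TL15_stmt := by
  intro i r G Z hZ
  rw [le_div_iff₀ hZ, TL15_PS, Finset.sum_mul]
  have hR : (∑ x ∈ G, ∑ u ∈ bxF i x r, ∑ v ∈ bxF i x r, PS i (fun X => u ∈ X ∧ v ∈ X)) =
      ∑ T ∈ (VV i).powerset, fh (Fc i) T ^ 2 *
        ∑ x ∈ G, ∑ u ∈ bxF i x r, ∑ v ∈ bxF i x r, TL15_i (u ∈ (T : Set V) ∧ v ∈ (T : Set V)) := by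
    simp only [TL15_PS, Finset.mul_sum]
    exact (TL15_swap (VV i).powerset G (fun x => bxF i x r) fun T u v =>
      fh (Fc i) T ^ 2 * TL15_i (u ∈ (T : Set V) ∧ v ∈ (T : Set V))).symm
  rw [hR]
  refine Finset.sum_le_sum fun T _ => ?_
  rw [mul_assoc]
  refine mul_le_mul_of_nonneg_left ?_ (sq_nonneg _)
  by_cases h : Z < ∑ x ∈ G, ∑ u ∈ bxF i x r, ∑ v ∈ bxF i x r,
    TL15_i (u ∈ (T : Set V) ∧ v ∈ (T : Set V))
  · rw [TL15_i_pos, one_mul]
    · exact h.le
    · simp only [TL15_card2]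
      exact h
  · rw [TL15_i_neg, zero_mul]
    · refine Finset.sum_nonneg fun x _ => Finset.sum_nonneg fun u _ => Finset.sum_nonneg
        fun v _ => ?_
      by_cases hp : u ∈ (T : Set V) ∧ v ∈ (T : Set V)
      · rw [TL15_i_pos hp]; exact zero_le_one
      · rw [TL15_i_neg hp]
    · simp only [TL15_card2]
      exact h

end TP
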